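import Pool.Agent.Lib.MP_f79ffc_lc.U.SysL
import Pool.Agent.Lib.MP_f79ffc_lc.R.Api

/-! Pairs of systems in which the second one is a common random extension of the first one. -/

namespace Pool.Agent.Lib.MP_f79ffc_lc.U

open Pool.Agent.Lib.MP_5d9fac_lc Pool.Agent.Lib.MP_f79ffc_lc.R

variable {I J : Type} [Preorder I] [Preorder J]

/-- `S1.X u` is the part of `RX (S0.X u)` below `v u ⊤`, or `S0.X u` itself at a low node.  On the
piece `ri (β w l) ⊓ cyl (tc l)` the arrow `u ≤ w` moves the cell `cc u w l` to the cell `tc l`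
(plain arrow: `cc u w l = tc l`). -/
structure RXP (S0 S1 : Sys I) [∀ u, Fact (CCC (S0.X u))] (Λ : Type) where
  v : ∀ u, S1.X u → RX (S0.X u)
  v_inf : ∀ u x y, v u (x ⊓ y) = v u x ⊓ v u y
  v_sSup : ∀ u (s : Set (S1.X u)), v u (sSup s) = ⨆ x ∈ s, v u x
  v_le : ∀ u x y, v u x ≤ v u y → x ≤ y
  ι : ∀ u, Hm (S0.X u) (S1.X u)
  v_ι : ∀ u x, v u (ι u x) = v u ⊤ ⊓ ri x
  low : I → Prop
  low_top : ∀ u, low u → v u ⊤ = ⊤
  low_surj : ∀ u, low u → Function.Surjective (ι u)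
  onto : ∀ u, ¬ low u → ∀ E, E ≤ v u ⊤ → ∃ H, v u H = E
  β : ∀ u, Λ → S0.X u
  tc : Λ → List Bool
  cc : I → I → Λ → List Bool
  cover : ∀ u, v u ⊤ ≤ ⨆ l, ri (β u l) ⊓ cyl (tc l)
  link : ∀ {u w : I} (h : u ≤ w) (l : Λ) (H : S1.X u),
    ri (β w l) ⊓ sh (tc l) (v w (S1.e h H)) =
      ri (β w l) ⊓ sh (tc l) (v w ⊤) ⊓ rmap (S0.e h) (sh (cc u w l) (v u H))

/-- a cell and a piece for every node -/
abbrev Dat (Λ : Type) {i : I} (t : Tm I i) : Type := Fam (fun _ => List Bool × Λ) t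

namespace RXP

variable {S0 S1 : Sys I} [∀ u, Fact (CCC (S0.X u))] {Λ : Type} (P : RXP S0 S1 Λ)

/-- pull back along a monotone map -/
def comap (f : J → I) (hf : Monotone f) : RXP (S0.comap f hf) (S1.comap f hf) Λ where
  v u := P.v (f u)
  v_inf u := P.v_inf (f u)
  v_sSup u := P.v_sSup (f u)
  v_le u := P.v_le (f u)
  ι u := P.ι (f u)
  v_ι u := P.v_ι (f u)
  low u := P.low (f u)
  low_top u := P.low_top (f u)
  low_surj u := P.low_surj (f u)
  onto u := P.onto (f u)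
  β u := P.β (f u)
  tc := P.tc
  cc u w := P.cc (f u) (f w)
  cover u := P.cover (f u)
  link h := P.link (hf h)

/-- the data at the small end `u` and at the big end `w` of an edge are matched -/
def Mt (u w : I) (d d' : List Bool × Λ) : Prop :=
  P.low u ∨ ∃ r, d'.1 = P.tc d'.2 ++ r ∧ d.1 = P.cc u w d'.2 ++ r

/-- all cells contain a `1`, lie in their pieces and are matched along the edges -/
def Good : ∀ {i : I} (t : Tm I i), Dat Λ t → Prop
  | _, .var _, d => true ∈ d.1 ∧ P.tc d.2 <+: d.1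
  | i, .emb (j := j) t _ s, d => Good t d.1 ∧ Good s d.2 ∧ P.Mt j i (Fam.head s d.2) (Fam.head t d.1)
  | i, .prj (j := j) t _ s, d => Good t d.1 ∧ Good s d.2 ∧ P.Mt i j (Fam.head t d.1) (Fam.head s d.2)

/-- the truth values of the pieces -/
def bet {i : I} (t : Tm I i) (D : Dat Λ t) : S0.Asg t := Fam.map (fun u d => P.β u d.2) t D

/-- the shadow of an assignment -/
noncomputable def shadow (ε : ℝ) {i : I} (t : Tm I i) (D : Dat Λ t) (a : S1.Asg t) : S0.Asg t :=
  Fam.map₂ (fun u d x => P.β u d.2 ⊓ Big ε (sh d.1 (P.v u x))) t D a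

/-- on the subcell `r` of length `n` of the cell `s` take `E r` -/
noncomputable def mix (n : ℕ) (u : I) (s : List Bool) (E : List Bool → S1.X u) : RX (S0.X u) :=
  ⨆ r : {r : List Bool // r.length = n}, cyl r.1 ⊓ sh s (P.v u (E r.1))

/-- the shadow of a family of assignments indexed by the cells of length `n` -/
noncomputable def shadowN (ε : ℝ) (n : ℕ) {i : I} (t : Tm I i) (D : Dat Λ t)
    (E : Fam (fun u => List Bool → S1.X u) t) : S0.Asg t :=
  Fam.map₂ (fun u d E => P.β u d.2 ⊓ Big ε (P.mix n u d.1 E)) t D E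

end RXP

end Pool.Agent.Lib.MP_f79ffc_lc.U
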