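import Pool.Agent.Lib.MP_f79ffc_lc.U.P.PDefs

/-! Detection by density cells, the way back, and the transfer of `K`, reductions and unbounded
matrices to a common random extension. -/

namespace Pool.Agent.Lib.MP_f79ffc_lc.U

open Pool.Agent.Lib.MP_5d9fac_lc Pool.Agent.Lib.MP_f79ffc_lc.R Cardinal

variable {I : Type} [Preorder I]

/-- a supremum in every slot can be replaced by one of its members -/
theorem Sys.exists_choice {S : Sys I} {κ : Type} : ∀ {i : I} (t : Tm I i)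
    (a : Fam (fun u => κ → S.X u) t) (x : S.X i),
    x ⊓ S.val t (Fam.map (fun _ p => ⨆ k, p k) t a) ≠ ⊥ → ∃ c : Fam (fun _ => κ) t,
      x ⊓ S.val t (Fam.map₂ (fun _ p k => p k) t a c) ≠ ⊥
  | _, .var _, _, _, h => exists_inf_ne_bot h
  | _, .emb t h s, a, x, H => by
    obtain ⟨b, h3⟩ := Sys.exists_choice t a.1
      (x ⊓ S.e h (S.val s (Fam.map (fun _ p => ⨆ k, p k) s a.2)))
      (by rw [inf_right_comm, inf_assoc]; exact H)
    rw [inf_right_comm, inf_map_ne_bot] at h3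
    obtain ⟨c, h6⟩ := Sys.exists_choice s a.2 _ h3
    rw [← inf_map_ne_bot, inf_assoc] at h6
    exact ⟨(b, c), h6⟩
  | _, .prj t h s, a, x, H => by
    obtain ⟨b, h3⟩ := Sys.exists_choice t a.1
      (x ⊓ S.p h (S.val s (Fam.map (fun _ p => ⨆ k, p k) s a.2)))
      (by rw [inf_right_comm, inf_assoc]; exact H)
    rw [inf_right_comm, inf_comm, ← inf_map_ne_bot, inf_comm] at h3
    obtain ⟨c, h6⟩ := Sys.exists_choice s a.2 _ h3
    rw [inf_comm, inf_map_ne_bot, inf_comm, inf_assoc] at h6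
    exact ⟨(b, c), h6⟩

theorem Fam.all₃ {Y Y' Z Z' : I → Type} {Q : ∀ i, Z i → Z' i → Prop}
    (f : ∀ i, Y i → Y' i → Z i) (g : ∀ i, Y i → Y' i → Z' i) (h : ∀ i x y, Q i (f i x y) (g i x y)) :
    ∀ {i : I} (t : Tm I i) (a : Fam Y t) (b : Fam Y' t),
      Fam.All₂ Q t (Fam.map₂ f t a b) (Fam.map₂ g t a b)
  | _, .var _, _, _ => h _ _ _
  | _, .emb t _ s, a, b => ⟨Fam.all₃ f g h t a.1 b.1, Fam.all₃ f g h s a.2 b.2⟩
  | _, .prj t _ s, a, b => ⟨Fam.all₃ f g h t a.1 b.1, Fam.all₃ f g h s a.2 b.2⟩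

theorem mix_inf {X : Type} [CompleteBooleanAlgebra X] [Fact (CCC X)] (n : ℕ)
    (A B : List Bool → RX X) :
    (⨆ r : {r : List Bool // r.length = n}, cyl r.1 ⊓ A r.1) ⊓
      (⨆ r : {r : List Bool // r.length = n}, cyl r.1 ⊓ B r.1) ≤
        ⨆ r : {r : List Bool // r.length = n}, cyl r.1 ⊓ (A r.1 ⊓ B r.1) := by
  rw [iSup_inf_eq]
  refine iSup_le fun r => ?_
  rw [inf_iSup_eq]
  refine iSup_le fun r' => ?_
  by_cases e : r = r'
  · subst e
    exact le_iSup_of_le r (by rw [inf_inf_inf_comm, inf_idem])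
  · rw [inf_inf_inf_comm, cyl_disj
      (fun h => e (Subtype.ext (h.eq_of_length (r.2.trans r'.2.symm))))
      (fun h => e (Subtype.ext (h.eq_of_length (r'.2.trans r.2.symm)).symm)), bot_inf_eq]
    exact bot_le

namespace RXP

variable {S0 S1 : Sys I} [∀ u, Fact (CCC (S0.X u))] {Λ : Type} (P : RXP S0 S1 Λ)

theorem v_mono (u : I) {x y : S1.X u} (h : x ≤ y) : P.v u x ≤ P.v u y := by
  rw [← inf_eq_left.2 h, P.v_inf]
  exact inf_le_right

theorem v_le_top (u : I) (x : S1.X u) : P.v u x ≤ P.v u ⊤ := P.v_mono u le_top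

theorem v_bot (u : I) : P.v u ⊥ = ⊥ := by simpa using P.v_sSup u ∅

theorem v_ne_bot (u : I) {x : S1.X u} (h : x ≠ ⊥) : P.v u x ≠ ⊥ := fun e =>
  h (le_bot_iff.1 (P.v_le u _ _ (e ▸ bot_le)))

theorem v_iSup (u : I) {κ : Sort*} (x : κ → S1.X u) : P.v u (⨆ k, x k) = ⨆ k, P.v u (x k) := by
  rw [iSup, P.v_sSup, iSup_range]

theorem v_compl (u : I) (x : S1.X u) : P.v u ⊤ ⊓ (P.v u x)ᶜ ≤ P.v u xᶜ := by
  have := P.v_sSup u {x, xᶜ}
  rw [sSup_pair, iSup_pair, sup_compl_eq_top] at this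
  rw [this, inf_sup_right, inf_compl_eq_bot, bot_sup_eq]
  exact inf_le_left

theorem iSup_compl_v (u : I) {x : ℕ → S1.X u} (h : ⨅ k, x k = ⊥) : ⨆ k, (P.v u (x k))ᶜ = ⊤ := by
  have h1 : P.v u ⊤ ≤ ⨆ k, (P.v u (x k))ᶜ := by
    rw [← compl_bot, ← h, compl_iInf, P.v_iSup]
    refine iSup_mono fun k => le_compl_iff_disjoint_right.2 (disjoint_iff.2 ?_)
    rw [← P.v_inf, compl_inf_eq_bot, P.v_bot]
  refine top_le_iff.1 ?_
  rw [← sup_compl_eq_top (x := P.v u ⊤)]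
  exact sup_le h1 (le_iSup_of_le 0 (compl_le_compl (P.v_le_top u _)))

theorem v_finf (u : I) {κ : Type} (F : Finset κ) (x : κ → S1.X u) :
    P.v u (F.inf x) = P.v u ⊤ ⊓ F.inf fun k => P.v u (x k) := by
  classical
  induction F using Finset.induction_on with
  | empty => simp
  | insert k F _ ih => rw [Finset.inf_insert, Finset.inf_insert, P.v_inf, ih, inf_left_comm]

/-- an inequality can be tested on the pieces -/
theorem le_of_pieces (w : I) {A : S1.X w} {B : RX (S0.X w)}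
    (h : ∀ l, ri (P.β w l) ⊓ sh (P.tc l) (P.v w A) ≤ sh (P.tc l) B) : P.v w A ≤ B := by
  rw [← inf_eq_left.2 ((P.v_le_top w A).trans (P.cover w)), inf_iSup_eq]
  refine iSup_le fun l => ?_
  rw [← inf_assoc]
  refine le_of_sh ?_
  rw [map_inf, sh_ri, inf_comm]
  exact h l

theorem link_top {u w : I} (h : u ≤ w) (l : Λ) : ri (P.β w l) ⊓ sh (P.tc l) (P.v w ⊤) ≤
    rmap (S0.e h) (sh (P.cc u w l) (P.v u ⊤)) := by
  have := P.link h l ⊤
  rw [map_top] at this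
  exact inf_eq_left.1 this.symm

theorem comm {u w : I} (h : u ≤ w) (x : S0.X u) : S1.e h (P.ι u x) = P.ι w (S0.e h x) :=
  hm_eq_of_le (f := (S1.e h).comp (P.ι u)) (g := (P.ι w).comp (S0.e h)) (fun x => P.v_le _ _ _
    (P.le_of_pieces w fun l => by
      change ri (P.β w l) ⊓ sh (P.tc l) (P.v w (S1.e h (P.ι u x))) ≤
        sh (P.tc l) (P.v w (P.ι w (S0.e h x)))
      rw [P.link, P.v_ι, P.v_ι, map_inf, map_inf, map_inf, sh_ri, sh_ri, rmap_ri]
      exact inf_le_inf inf_le_right inf_le_right)) x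

/-- the arrow at matched cells -/
theorem lk {u w : I} (h : u ≤ w) {d d' : List Bool × Λ} (m : P.Mt u w d d') (H : S1.X u) :
    ri (P.β w d'.2) ⊓ sh d'.1 (P.v w (S1.e h H)) =
      ri (P.β w d'.2) ⊓ sh d'.1 (P.v w ⊤) ⊓ rmap (S0.e h) (sh d.1 (P.v u H)) := by
  rcases m with m | ⟨r, e1, e2⟩
  · obtain ⟨x, rfl⟩ := P.low_surj u m H
    rw [P.comm, P.v_ι, P.v_ι, P.low_top u m, top_inf_eq, map_inf, sh_ri, sh_ri, rmap_ri, inf_assoc]
  · have := congrArg (sh r) (P.link h d'.2 H)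
    rwa [map_inf, map_inf, map_inf, sh_ri, ← rmap_sh, ← sh_append, ← sh_append, ← sh_append,
      ← e1, ← e2] at this

theorem lk_le {u w : I} (h : u ≤ w) {d d' : List Bool × Λ} (m : P.Mt u w d d') {A : S1.X w}
    {H : S1.X u} (hA : A ≤ S1.e h H) : ri (P.β w d'.2) ⊓ sh d'.1 (P.v w A) ≤
      rmap (S0.e h) (sh d.1 (P.v u H)) :=
  (inf_le_inf_left _ (hm_mono _ (P.v_mono w hA))).trans ((P.lk h m H).trans_le inf_le_right)

/-- the bound of DET at the data with root cell `s` -/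
noncomputable def dg (ε : ℝ) {i : I} (t : Tm I i) (a : S1.Asg t) (s : List Bool) : S0.X i :=
  ⨆ D : {D : Dat Λ t // P.Good t D ∧ (Fam.head t D).1 = s}, S0.val t (P.shadow ε t D.1 a)

/-- the bound of DET at the data with root datum `d` -/
noncomputable def dl (ε : ℝ) {i : I} (t : Tm I i) (a : S1.Asg t) (d : List Bool × Λ) : S0.X i :=
  ⨆ D : {D : Dat Λ t // P.Good t D ∧ Fam.head t D = d}, S0.val t (P.shadow ε t D.1 a)

theorem glob {ε : ℝ} {i : I} {t : Tm I i} {a : S1.Asg t}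
    (h : ∀ l, ri (P.β i l) ⊓ sh (P.tc l) (P.v i (S1.val t a)) ≤
      Ev fun r => P.dl ε t a (P.tc l ++ r, l)) : P.v i (S1.val t a) ≤ Ev (P.dg ε t a) :=
  P.le_of_pieces i fun l => (h l).trans (by
    rw [sh_Ev]
    exact Ev_mono fun r => iSup_le fun D =>
      le_iSup_of_le ⟨D.1, D.2.1, congrArg Prod.fst D.2.2⟩ le_rfl)

theorem le_ι {u : I} {A : S1.X u} {x : S0.X u} (h : P.v u A ≤ ri x) : A ≤ P.ι u x :=
  P.v_le _ _ _ (by rw [P.v_ι]; exact le_inf (P.v_le_top _ _) h)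

theorem det_loc {ε : ℝ} (hε : 0 < ε) : ∀ {i : I} (t : Tm I i) (a : S1.Asg t) (l : Λ),
    ri (P.β i l) ⊓ sh (P.tc l) (P.v i (S1.val t a)) ≤ Ev fun r => P.dl ε t a (P.tc l ++ r, l)
  | i, .var _, a, l => by
    refine (inf_le_inf_left _ (le_Ev_Big hε _)).trans ?_
    rw [ri_inf_Ev]
    refine Ev_mono' 0 fun r _ hr => le_iSup_of_le ⟨(P.tc l ++ r, l),
      ⟨List.mem_append_right _ hr, List.prefix_append _ _⟩, rfl⟩ ?_
    rw [← sh_append]
    exact le_rfl
  | i, .emb (j := j) t h s, a, l => by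
    have h1 := det_loc hε t a.1 l
    have h2 := P.glob (det_loc hε s a.2)
    have key : ∀ r (D : Dat Λ s), P.Good s D → P.Mt j i (Fam.head s D) (P.tc l ++ r, l) →
        P.dl ε t a.1 (P.tc l ++ r, l) ⊓ S0.e h (S0.val s (P.shadow ε s D a.2)) ≤
          P.dl ε (.emb t h s) a (P.tc l ++ r, l) := fun r D hD m => by
      rw [dl, iSup_inf_eq]
      exact iSup_le fun D' => le_iSup_of_le ⟨(D'.1, D), ⟨D'.2.1, hD, D'.2.2.symm ▸ m⟩, D'.2.2⟩ le_rfl
    change ri (P.β i l) ⊓ sh (P.tc l) (P.v i (S1.val t a.1 ⊓ S1.e h (S1.val s a.2))) ≤ _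
    rw [P.v_inf, map_inf, inf_inf_distrib_left]
    by_cases hj : P.low j
    · have h3 := hm_mono (S1.e h) (P.le_ι (h2.trans (Ev_le_ri _)))
      rw [P.comm] at h3
      have h4 := hm_mono (sh (P.tc l)) (P.v_mono i h3)
      rw [P.v_ι, map_inf, sh_ri] at h4
      refine (inf_le_inf h1 (inf_le_right.trans (h4.trans inf_le_right))).trans ?_
      rw [inf_comm, ri_inf_Ev]
      refine Ev_mono fun r => ?_
      rw [inf_comm, map_iSup, inf_iSup_eq]
      refine iSup_le fun c => ?_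
      rw [dg, map_iSup, inf_iSup_eq]
      exact iSup_le fun D => key r D.1 D.2.1 (Or.inl hj)
    · have h3 := (P.link h l (S1.val s a.2)).trans_le (inf_le_right.trans
        (hm_mono _ (hm_mono _ h2)))
      rw [sh_Ev, rmap_Ev] at h3
      refine (inf_le_inf h1 h3).trans ?_
      rw [Ev_inf]
      refine Ev_mono fun r => ?_
      rw [dg, map_iSup, inf_iSup_eq]
      exact iSup_le fun D => key r D.1 D.2.1 (Or.inr ⟨r, rfl, D.2.2⟩)
  | i, .prj (j := j) t h s, a, l => by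
    have h1 := det_loc hε t a.1 l
    have h2 := det_loc hε s a.2
    have key : ∀ r (D : Dat Λ s), P.Good s D → P.Mt i j (P.tc l ++ r, l) (Fam.head s D) →
        P.dl ε t a.1 (P.tc l ++ r, l) ⊓ S0.p h (S0.val s (P.shadow ε s D a.2)) ≤
          P.dl ε (.prj t h s) a (P.tc l ++ r, l) := fun r D hD m => by
      rw [dl, iSup_inf_eq]
      exact iSup_le fun D' => le_iSup_of_le ⟨(D'.1, D), ⟨D'.2.1, hD, D'.2.2.symm ▸ m⟩, D'.2.2⟩ le_rfl
    change ri (P.β i l) ⊓ sh (P.tc l) (P.v i (S1.val t a.1 ⊓ S1.p h (S1.val s a.2))) ≤ _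
    rw [P.v_inf, map_inf, inf_inf_distrib_left]
    by_cases hi : P.low i
    · have h3 := P.le_ι (((P.glob h2).trans (Ev_le_ri _)).trans
        (hm_mono ri (le_map_pj (S0.e h) _)))
      rw [← P.comm, ← pj_le] at h3
      have h4 := hm_mono (sh (P.tc l)) (P.v_mono i h3)
      rw [P.v_ι, map_inf, sh_ri] at h4
      refine (inf_le_inf h1 (inf_le_right.trans (h4.trans inf_le_right))).trans ?_
      rw [inf_comm, ri_inf_Ev]
      refine Ev_mono fun r => ?_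
      rw [inf_comm, pj_iSup, inf_iSup_eq]
      refine iSup_le fun c => ?_
      rw [dg, pj_iSup, inf_iSup_eq]
      exact iSup_le fun D => key r D.1 D.2.1 (Or.inl hi)
    · obtain ⟨H, hH⟩ := P.onto i hi (P.v i ⊤ ⊓ Ev fun c =>
        ⨆ x : {x : Λ × List Bool // c = P.cc i j x.1 ++ x.2},
          S0.p h (P.dl ε s a.2 (P.tc x.1.1 ++ x.1.2, x.1.1))) inf_le_left
      have h3 : S1.val s a.2 ≤ S1.e h H := P.v_le _ _ _ (P.le_of_pieces j fun l' => by
        refine le_trans ?_ ((P.link h l' H).ge.trans inf_le_right)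
        have h5 := inf_le_inf_left (ri (P.β j l')) (hm_mono (sh (P.tc l'))
          (P.v_le_top j (S1.val s a.2)))
        rw [hH, map_inf, map_inf, sh_Ev, rmap_Ev]
        refine le_inf h5 (le_inf (h5.trans (P.link_top h l')) ((h2 l').trans
          (Ev_mono fun r => pj_le.1 ?_)))
        exact le_iSup_of_le ⟨(l', r), rfl⟩ le_rfl)
      have h4 := hm_mono (sh (P.tc l)) (P.v_mono i (pj_le.2 h3))
      rw [hH, map_inf, sh_Ev] at h4
      refine (inf_le_inf h1 (inf_le_right.trans (h4.trans inf_le_right))).trans ?_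
      rw [Ev_inf]
      refine Ev_mono fun r => ?_
      rw [inf_iSup_eq]
      refine iSup_le fun x => ?_
      rw [dl.eq_1 P ε s, Sys.p, pj_iSup, inf_iSup_eq]
      exact iSup_le fun D => key r D.1 D.2.1 (Or.inr ⟨x.1.2, by rw [D.2.2], by rw [D.2.2]; exact x.2⟩)

/-- DET -/
theorem det {ε : ℝ} (hε : 0 < ε) {i : I} (t : Tm I i) (a : S1.Asg t) :
    P.v i (S1.val t a) ≤ Ev fun s => ⨆ D : {D : Dat Λ t // P.Good t D ∧ (Fam.head t D).1 = s},
      S0.val t (P.shadow ε t D.1 a) := P.glob (P.det_loc hε t a)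

theorem det_ne {ε : ℝ} (hε : 0 < ε) {i : I} (t : Tm I i) {a : S1.Asg t} (h : S1.val t a ≠ ⊥) :
    ∃ D, P.Good t D ∧ S0.val t (P.shadow ε t D a) ≠ ⊥ := by
  obtain ⟨s, -, -, hs⟩ := exists_of_Ev_ne_bot (ne_bot_of_le (P.det hε t a) (P.v_ne_bot i h)) 0
  obtain ⟨D, hD⟩ := exists_ne_bot hs
  exact ⟨D.1, D.2.1, hD⟩

theorem shadowN_le {ε : ℝ} (n : ℕ) {i : I} (t : Tm I i) (D : Dat Λ t)
    (E : Fam (fun u => List Bool → S1.X u) t) :
    S0.val t (P.shadowN ε n t D E) ≤ P.β i (Fam.head t D).2 :=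
  (Sys.val_le_head t _).trans (by rw [shadowN, Fam.head_map₂]; exact inf_le_left)

theorem bk_aux (ε : ℝ) (n : ℕ) : ∀ {i : I} (t : Tm I i) {D : Dat Λ t}, P.Good t D →
    ∀ E : Fam (fun u => List Bool → S1.X u) t, S0.val t (P.shadowN ε n t D E) ≤ Big (t.size * ε)
      (P.mix n i (Fam.head t D).1 fun r => S1.val t (S1.mem t E r))
  | i, .var _, D, _, E => by
    rw [Tm.size, Nat.cast_one, one_mul]
    exact inf_le_right
  | i, .emb (j := j) t h s, D, hD, E => by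
    have h1 := le_inf (P.shadowN_le (ε := ε) n t D.1 E.1) (bk_aux ε n t hD.1 E.1)
    have h2 := hm_mono (S0.e h) (bk_aux ε n s hD.2.1 E.2)
    rw [← Big_rmap] at h2
    refine (inf_le_inf h1 h2).trans ?_
    rw [inf_assoc, Tm.size, Nat.cast_add, add_mul]
    refine (inf_le_inf_left _ (Big_inf _ _ _ _)).trans (Big_loc ?_ _)
    simp only [mix, map_iSup, map_inf, rmap_cyl]
    refine (inf_le_inf_left _ (mix_inf n (fun r => sh (Fam.head t D.1).1
      (P.v i (S1.val t (S1.mem t E.1 r)))) fun r => rmap (S0.e h) (sh (Fam.head s D.2).1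
      (P.v j (S1.val s (S1.mem s E.2 r)))))).trans ?_
    rw [inf_iSup_eq]
    refine iSup_mono fun r => ?_
    rw [inf_left_comm]
    refine inf_le_inf_left _ ?_
    change _ ≤ sh (Fam.head t D.1).1 (P.v i (S1.val t (S1.mem t E.1 r) ⊓
      S1.e h (S1.val s (S1.mem s E.2 r))))
    rw [P.v_inf, map_inf]
    refine le_inf (inf_le_right.trans inf_le_left) (le_trans ?_
      ((P.lk h hD.2.2 _).ge.trans inf_le_right))
    rw [inf_assoc]
    exact inf_le_inf_left _ (inf_le_inf_right _ (hm_mono _ (P.v_le_top _ _)))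
  | i, .prj (j := j) t h s, D, hD, E => by
    have h1 := bk_aux ε n t hD.1 E.1
    have h2 := (le_inf (P.shadowN_le (ε := ε) n s D.2 E.2) (bk_aux ε n s hD.2.1 E.2)).trans
      (Big_loc (F := rmap (S0.e h) (P.mix n i (Fam.head t D.1).1 fun r =>
        S1.p h (S1.val s (S1.mem s E.2 r)))) (by
          simp only [mix, map_iSup, map_inf, rmap_cyl]
          rw [inf_iSup_eq]
          refine iSup_mono fun r => ?_
          rw [inf_left_comm]
          exact inf_le_inf_left _ (P.lk_le h hD.2.2 (le_map_pj _ _))) _)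
    rw [Big_rmap, ← pj_le] at h2
    refine (inf_le_inf h1 h2).trans ?_
    rw [Tm.size, Nat.cast_add, add_mul]
    refine (Big_inf _ _ _ _).trans (Big_mono le_rfl ((mix_inf n (fun r => sh (Fam.head t D.1).1
      (P.v i (S1.val t (S1.mem t E.1 r)))) fun r => sh (Fam.head t D.1).1
      (P.v i (S1.p h (S1.val s (S1.mem s E.2 r))))).trans (iSup_mono fun r => ?_)))
    rw [← map_inf, ← P.v_inf]
    exact le_rfl

/-- BK -/
theorem bk {ε : ℝ} (n : ℕ) {i : I} (t : Tm I i) {D : Dat Λ t} (hD : P.Good t D)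
    (E : Fam (fun u => List Bool → S1.X u) t) :
    S0.val t (P.shadowN ε n t D E) ≤ Big (t.size * ε)
      (P.mix n i (Fam.head t D).1 fun r => S1.val t (S1.mem t E r)) := P.bk_aux ε n t hD E

theorem bk_ne {ε : ℝ} (n : ℕ) {i : I} (t : Tm I i) (hε : t.size * ε < 1) {D : Dat Λ t}
    (hD : P.Good t D) (E : Fam (fun u => List Bool → S1.X u) t) {b : S0.Asg t}
    (hb : S0.Le t b (P.shadowN ε n t D E)) (h : S0.val t b ≠ ⊥) :
    ∃ r : List Bool, r.length = n ∧ S1.val t (S1.mem t E r) ≠ ⊥ := by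
  obtain ⟨r, hr⟩ := exists_ne_bot (pj_ne_bot.1 (ne_bot_of_le
    ((P.bk n t hD E).trans (Big_le_Pos hε _)) (Sys.val_ne_of_le hb h)))
  refine ⟨r.1, r.2, fun e => hr ?_⟩
  beta_reduce
  rw [e, P.v_bot, map_bot, inf_bot_eq]

theorem tok_var {ε : ℝ} (n : ℕ) (i : I) (s : List Bool) (a : S1.X i) (c : List Bool → S1.X i)
    (b : S0.X i) (hb : b ≤ Big ε (sh s (P.v i a)))
    (hc : ∀ r : List Bool, r.length = n → ri b ⊓ P.v i ⊤ ≤ cyl (s ++ r) ⇨ P.v i (c r)) :
    b ≤ Big ε (P.mix n i s fun r => a ⊓ c r) := by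
  refine le_trans (le_inf le_rfl hb) (Big_loc ?_ _)
  rw [← inf_top_eq (ri b ⊓ _), ← iSup_cyl n, inf_iSup_eq]
  refine iSup_mono fun r => le_inf inf_le_right ?_
  have := hm_mono (sh s) (le_himp_iff.1 (hc r.1 r.2))
  rw [map_inf, map_inf, sh_ri, sh_cyl_append] at this
  rw [P.v_inf, map_inf]
  exact le_inf (inf_le_left.trans inf_le_right) (le_trans (inf_le_inf_right _
    (inf_le_inf_left _ (hm_mono _ (P.v_le_top _ _)))) this)

theorem tok_aux {ε : ℝ} (n : ℕ) : ∀ {i : I} (t : Tm I i) (D : Dat Λ t) (a : S1.Asg t)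
    (c : List Bool → S1.Asg t) (b : S0.Asg t), S0.Le t b (P.shadow ε t D a) →
    (∀ r : List Bool, r.length = n → Fam.All₂
      (fun u (x : S0.X u) (y : RX (S0.X u)) => ri x ⊓ P.v u ⊤ ≤ y) t b
      (Fam.map₂ (fun u (d : List Bool × Λ) z => cyl (d.1 ++ r) ⇨ P.v u z) t D (c r))) →
    S0.Le t b (P.shadowN ε n t D (Fam.pi t fun r => S1.inf t a (c r)))
  | i, .var _, D, a, c, b, hb, hc => le_inf (α := S0.X i) (le_trans hb inf_le_left)
      (P.tok_var n i D.1 a c b (le_trans hb inf_le_right) hc)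
  | _, .emb t _ s, D, a, c, b, hb, hc =>
    ⟨tok_aux n t D.1 a.1 (fun r => (c r).1) b.1 hb.1 fun r hr => (hc r hr).1,
      tok_aux n s D.2 a.2 (fun r => (c r).2) b.2 hb.2 fun r hr => (hc r hr).2⟩
  | _, .prj t _ s, D, a, c, b, hb, hc =>
    ⟨tok_aux n t D.1 a.1 (fun r => (c r).1) b.1 hb.1 fun r hr => (hc r hr).1,
      tok_aux n s D.2 a.2 (fun r => (c r).2) b.2 hb.2 fun r hr => (hc r hr).2⟩

/-- the form used in TOK: `b` is below the shadow of `a` and forces `c r` on the subcell `r` -/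
theorem bk_tok {ε : ℝ} (n : ℕ) {i : I} (t : Tm I i) (hε : t.size * ε < 1) {D : Dat Λ t}
    (hD : P.Good t D) (a : S1.Asg t) (c : List Bool → S1.Asg t) {b : S0.Asg t}
    (hb : S0.Le t b (P.shadow ε t D a)) (h : S0.val t b ≠ ⊥)
    (hc : ∀ r : List Bool, r.length = n → Fam.All₂
      (fun u (x : S0.X u) (y : RX (S0.X u)) => ri x ⊓ P.v u ⊤ ≤ y) t b
      (Fam.map₂ (fun u (d : List Bool × Λ) z => cyl (d.1 ++ r) ⇨ P.v u z) t D (c r))) :
    ∃ r : List Bool, r.length = n ∧ S1.val t (S1.inf t a (c r)) ≠ ⊥ := by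
  simpa only [Sys.mem_pi] using P.bk_ne n t hε hD _ (P.tok_aux n t D a c b hb hc) h

theorem exists_eps {i : I} (t : Tm I i) {ε : ℝ} (hε : 0 < ε) :
    ∃ δ : ℝ, 0 < δ ∧ t.size * δ < 1 ∧ t.size * δ ≤ ε := by
  have h : (0 : ℝ) < t.size := by exact_mod_cast t.size_pos
  refine ⟨min ε (1 / 2) / t.size, by positivity, ?_⟩
  rw [mul_div_cancel₀ _ h.ne']
  exact ⟨(min_le_right _ _).trans_lt (by norm_num), min_le_left _ _⟩

theorem red_aux : ∀ {i : I} (t : Tm I i) (D : Dat Λ t) (b : S0.Asg t) (r : List Bool), Fam.All₂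
      (fun u (x : S0.X u) (y : RX (S0.X u)) => ri x ⊓ P.v u ⊤ ≤ y) t b
      (Fam.map₂ (fun u (d : List Bool × Λ) z => cyl (d.1 ++ r) ⇨ P.v u z) t D
        (Fam.map (fun i => P.ι i) t b))
  | i, .var _, _, b, _ =>
    le_himp_iff.2 (inf_le_left.trans ((inf_comm _ _).trans (P.v_ι i b).symm).le)
  | _, .emb t _ s, D, b, r => ⟨red_aux t D.1 b.1 r, red_aux s D.2 b.2 r⟩
  | _, .prj t _ s, D, b, r => ⟨red_aux t D.1 b.1 r, red_aux s D.2 b.2 r⟩

theorem red {i : I} (t : Tm I i) (a' : S1.Asg t) (h : S1.val t a' ≠ ⊥) :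
    ∃ a : S0.Asg t, S0.val t a ≠ ⊥ ∧ ∀ b : S0.Asg t, S0.Le t b a → S0.val t b ≠ ⊥ →
      S1.val t (S1.inf t a' (Fam.map (fun i => P.ι i) t b)) ≠ ⊥ := by
  obtain ⟨δ, h0, h1, -⟩ := exists_eps t one_pos
  obtain ⟨D, hD, h2⟩ := P.det_ne h0 t h
  exact ⟨_, h2, fun b hb h3 => (P.bk_tok 0 t h1 hD a' (fun _ => _) hb h3
    fun r _ => P.red_aux t D b r).choose_spec.2⟩

/-- the morphism, given injectivity and correct squares -/
def mor (inj : ∀ u, Function.Injective (P.ι u))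
    (corr : ∀ {u w : I} (h : u ≤ w) (y : S0.X w), S1.p h (P.ι w y) = P.ι u (S0.p h y)) :
    Mor S0 S1 := ⟨P.ι, inj, P.comm, corr, P.red⟩

theorem k_var {κ : Type} {F : Finset κ} (hF : F.Nonempty) {δ : ℝ} (h0 : 0 < δ) (h1 : δ < 1)
    (i : I) (s : List Bool) (x : S0.X i) (a : κ → S1.X i) :
    (F.inf fun k => x ⊓ Big (δ * δ) (sh s (P.v i (a k)))) ≤ x ⊓ Big δ (P.mix 0 i s fun _ =>
      ⨆ S : {S : Finset κ // S ⊆ F ∧ (1 - δ) * F.card ≤ S.card}, S.1.inf a) := by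
  obtain ⟨k, hk⟩ := hF
  refine le_inf ((Finset.inf_le hk).trans inf_le_left) (le_trans
    (Finset.inf_mono_fun fun k _ => inf_le_right) ((markov F
      (fun k => sh s (P.v i (a k))) h0).trans (Big_mono le_rfl (iSup_le fun S => ?_))))
  refine le_iSup_of_le ⟨[], rfl⟩ ?_
  rw [cyl_nil, top_inf_eq, P.v_iSup, map_iSup]
  refine le_iSup_of_le S ?_
  obtain ⟨k', hk'⟩ : S.1.Nonempty := by
    have : (0 : ℝ) < F.card := by exact_mod_cast Finset.card_pos.2 ⟨k, hk⟩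
    have : (0 : ℝ) < S.1.card := lt_of_lt_of_le (mul_pos (by linarith) this) S.2.2
    exact Finset.card_pos.1 (by exact_mod_cast this)
  rw [P.v_finf, map_inf, map_finset_inf]
  exact le_inf ((Finset.inf_le hk').trans (hm_mono _ (P.v_le_top _ _))) le_rfl

/-- Markov in every slot -/
theorem k_aux {κ : Type} {F : Finset κ} (hF : F.Nonempty) {δ : ℝ} (h0 : 0 < δ) (h1 : δ < 1) :
    ∀ {i : I} (t : Tm I i) (D : Dat Λ t) (a : Fam (fun u => κ → S1.X u) t),
    S0.Le t (S0.fin t (Fam.pi t fun k => P.shadow (δ * δ) t D (S1.mem t a k)) F)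
      (P.shadowN δ 0 t D (Fam.map (fun _ p _ =>
        ⨆ S : {S : Finset κ // S ⊆ F ∧ (1 - δ) * F.card ≤ S.card}, S.1.inf p) t a))
  | i, .var _, D, a => P.k_var hF h0 h1 i D.1 _ a
  | _, .emb t _ s, D, a => ⟨k_aux hF h0 h1 t D.1 a.1, k_aux hF h0 h1 s D.2 a.2⟩
  | _, .prj t _ s, D, a => ⟨k_aux hF h0 h1 t D.1 a.1, k_aux hF h0 h1 s D.2 a.2⟩

theorem k_common {κ : Type} {F : Finset κ} {δ : ℝ} : ∀ {i : I} (t : Tm I i)
    (a : Fam (fun u => κ → S1.X u) t)
    (c : Fam (fun _ => {S : Finset κ // S ⊆ F ∧ (1 - δ) * F.card ≤ S.card}) t),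
    ∃ G, G ⊆ F ∧ (1 - t.size * δ) * F.card ≤ G.card ∧ S1.Le t (Fam.map₂ (fun _ p k => p k) t
      (Fam.map (fun _ p (S : {S : Finset κ // S ⊆ F ∧ (1 - δ) * F.card ≤ S.card}) => S.1.inf p)
        t a) c) (S1.fin t a G) := by
  classical
  have key : ∀ {G G' : Finset κ} {x y : ℝ}, G ⊆ F → G' ⊆ F → (1 - x) * F.card ≤ G.card →
      (1 - y) * F.card ≤ G'.card → (1 - (x + y)) * F.card ≤ (G ∩ G').card := by
    intro G G' x y h h' a b
    have h1 := Finset.card_le_card (Finset.union_subset h h')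
    have h2 := Finset.card_union_add_card_inter G G'
    have h1' : ((G ∪ G').card : ℝ) ≤ F.card := by exact_mod_cast h1
    have h2' : ((G ∪ G').card : ℝ) + (G ∩ G').card = G.card + G'.card := by exact_mod_cast h2
    linarith
  intro i t
  induction t with
  | var i => exact fun a c => ⟨c.1, c.2.1, by simpa [Tm.size] using c.2.2, le_refl (α := S1.X i) _⟩
  | emb t h s ih1 ih2 =>
    intro a c
    obtain ⟨G, a1, a2, a3⟩ := ih1 a.1 c.1
    obtain ⟨G', b1, b2, b3⟩ := ih2 a.2 c.2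
    exact ⟨G ∩ G', Finset.inter_subset_left.trans a1, by
      rw [Tm.size, Nat.cast_add, add_mul]; exact key a1 b1 a2 b2,
      a3.trans (Sys.fin_anti t _ Finset.inter_subset_left),
      b3.trans (Sys.fin_anti s _ Finset.inter_subset_right)⟩
  | prj t h s ih1 ih2 =>
    intro a c
    obtain ⟨G, a1, a2, a3⟩ := ih1 a.1 c.1
    obtain ⟨G', b1, b2, b3⟩ := ih2 a.2 c.2
    exact ⟨G ∩ G', Finset.inter_subset_left.trans a1, by
      rw [Tm.size, Nat.cast_add, add_mul]; exact key a1 b1 a2 b2,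
      a3.trans (Sys.fin_anti t _ Finset.inter_subset_left),
      b3.trans (Sys.fin_anti s _ Finset.inter_subset_right)⟩

include P in
theorem K [Countable Λ] (h : S0.K) : S1.K := by
  refine Sys.K_of_tm fun κ h1 h2 i t a A₀ h3 h4 ε hε => ?_
  obtain ⟨δ, d0, d1, d2⟩ := exists_eps t (half_pos hε)
  have d3 : δ < 1 := lt_of_le_of_lt (le_mul_of_one_le_left d0.le
    (by exact_mod_cast t.size_pos)) d1
  have := Fam.countable (Y := fun _ => List Bool × Λ) t
  obtain ⟨D, A₁, a1, a2, a3⟩ := exists_fiber' h1 h2 h3 (fun k (D : Dat Λ t) => P.Good t D ∧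
    S0.val t (P.shadow (δ * δ) t D (S1.mem t a k)) ≠ ⊥) fun k hk =>
      P.det_ne (mul_pos d0 d0) t (h4 k hk)
  obtain ⟨A, b1, b2, b3⟩ := h.tm h1 h2 t (Fam.pi t fun k => P.shadow (δ * δ) t D (S1.mem t a k)) a2
    (fun k hk => by rw [Sys.mem_pi]; exact (a3 k hk).2) (min (ε / 2) (1 / 2)) (by positivity)
  obtain ⟨k0, hk0⟩ : A.Nonempty := by
    rw [← Set.nonempty_coe_sort, ← mk_ne_zero_iff, b2]
    exact (aleph0_pos.trans h2).ne'
  rcases subsingleton_or_nontrivial (S1.X i) with hs | hs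
  · exact absurd (Subsingleton.elim _ _) (h4 k0 (a1 (b1 hk0)))
  refine ⟨A, b1.trans a1, b2, fun F hF => ?_⟩
  rcases F.eq_empty_or_nonempty with rfl | hne
  · exact ⟨∅, Finset.Subset.refl _, by simp, Sys.val_ne_of_le
      (Sys.le_fin t a fun k hk => absurd hk (Finset.notMem_empty k)) (h4 k0 (a1 (b1 hk0)))⟩
  obtain ⟨F', c1, c2, c3⟩ := b3 F hF
  have p0 : (0 : ℝ) < F.card := by exact_mod_cast Finset.card_pos.2 hne
  have m1 := min_le_left (ε / 2) (1 / 2)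
  have m2 := min_le_right (ε / 2) (1 / 2)
  have hne' : F'.Nonempty := Finset.card_pos.1 (by
    have : (0 : ℝ) < F'.card := lt_of_lt_of_le (mul_pos (by linarith) p0) c2
    exact_mod_cast this)
  obtain ⟨r, -, hr⟩ := P.bk_ne 0 t d1 (a3 k0 (b1 hk0)).1 _ (P.k_aux hne' d0 d3 t D a) c3
  obtain ⟨c, hc⟩ := Sys.exists_choice t (Fam.map (fun _ p
    (S : {S : Finset κ // S ⊆ F' ∧ (1 - δ) * F'.card ≤ S.card}) => S.1.inf p) t a) ⊤ (by
      rw [top_inf_eq, Fam.map_map]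
      rwa [Sys.mem, Fam.map_map] at hr)
  obtain ⟨G, g1, g2, g3⟩ := k_common t a c
  refine ⟨G, g1.trans c1, le_trans ?_ g2, Sys.val_ne_of_le g3 (by rwa [top_inf_eq] at hc)⟩
  have p1 : (F'.card : ℝ) ≤ F.card := by exact_mod_cast Finset.card_le_card c1
  have p2 : 0 ≤ t.size * δ := by positivity
  nlinarith

theorem unb {u w : I} (h : u ≤ w) {t : ℕ → ℕ → S0.X w} (ht : Mat t) (H : Unb (S0.e h) t) :
    Unb (S1.e h) fun n k => P.ι w (t n k) := by
  intro E hE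
  by_contra hc
  push Not at hc
  obtain ⟨D, hD, h1⟩ := P.det_ne (ε := 1 / 4) (by norm_num) (.var w) hE
  obtain ⟨r, hr⟩ := hD.2
  have m : P.Mt u w (P.cc u w D.2 ++ r, D.2) D := Or.inr ⟨r, hr.symm, rfl⟩
  obtain ⟨n, k, h2⟩ := H.exists h1 (fun n k => Big (1 / 4) (sh (P.cc u w D.2 ++ r)
    (P.v u (pj (S1.e h) (E ⊓ P.ι w (t n k))))ᶜ)) fun n => le_top.trans (le_trans (by
      rw [← map_iSup, P.iSup_compl_v u (hc n), map_top, Big_top le_rfl])
      (Big_iSup_le (ε := 0) (fun k k' hk => hm_mono _ (compl_le_compl (P.v_mono u (pj_mono _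
        (inf_le_inf_left _ (hm_mono _ (ht.anti n hk))))))) (by norm_num)))
  refine h2 (le_bot_iff.1 ?_)
  change P.β w D.2 ⊓ Big (1 / 4) (sh D.1 (P.v w E)) ⊓ t n k ⊓ _ ≤ _
  rw [← Big_rmap, inf_right_comm (P.β w D.2), inf_assoc]
  refine (inf_le_inf_left _ (Big_inf _ _ _ _)).trans ((Big_loc (F := ⊥) ?_ _).trans
    ((Big_le_Pos (by norm_num) _).trans (pj_bot _).le))
  have h3 := P.lk_le h m (le_map_pj (S1.e h) (E ⊓ P.ι w (t n k)))
  rw [P.v_inf, P.v_ι, ← inf_assoc, inf_eq_left.2 (P.v_le_top w E), map_inf, sh_ri] at h3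
  rw [hm_compl, hm_compl, ← inf_assoc, le_bot_iff, ← disjoint_iff, disjoint_compl_right_iff, map_inf,
    inf_assoc, inf_comm (ri (t n k))]
  exact h3

end RXP

end Pool.Agent.Lib.MP_f79ffc_lc.U
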